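import Pool.Agent.Helper362.IdealD
set_option autoImplicit false

universe u

namespace Pool.Agent.Results.MP_c384ac_an.RightAccessibleIffLRP

open Pool.Agent.Helper362.Ideals

/-- For every maximal Banach ideal (real or complex scalars, Banach spaces in any universe),
right-accessibility is equivalent to the principle of local reflexivity for that ideal. -/
theorem result (𝕜 : Type) [RCLike 𝕜] (I : BanachIdeal.{u} 𝕜) (_hI : IsMaximal I.toIdealData) :
    RightAccessible I.toIdealData ↔ LRP I.toIdealData :=
  I.rightAccessible_iff_LRP

end Pool.Agent.Results.MP_c384ac_an.RightAccessibleIffLRP
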